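import Pool.Agent.N110.NV.Fin
import Pool.Agent.N110.NV.Psef
import Pool.Agent.N110.JPlateau
import Pool.Agent.R887.Exc

/-!
Weak abundance, `κ = ν`, for pairs `(X, Δ)` of irregularity zero with birational self-maps
preserving `K_X + Δ` whose greatest dynamical degree is not attained at two consecutive indices.
-/

set_option autoImplicit false

open FF Pool.Agent.W602.GT Pool.Agent.Y172 Pool.Agent.R887 Pool.Agent.N110

/-- Let `X` be a normal projective variety of dimension `n ≥ 1`, of irregularity zero, with generic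
point `y`, and `Δ ≥ 0` a `ℚ`-divisor on `X` (log canonical or not). Let `S` be a set of birational
self-maps `f` of `X`, given by the automorphisms `φ = f^*` of the function field, of bounded degrees
(a single map, for instance), which preserve `K_X + Δ`: over the prime divisors of `X` the divisors
`f^* (K_X + Δ)` and `(f⁻¹)^* (K_X + Δ)` are at most `K_X + Δ`. Suppose that the greatest of the
joint dynamical degrees `λ 0, ..., λ n` of `S` (the dynamical degrees of `f`, if `S = {f}`) is not
attained at two consecutive indices. Then the Kodaira dimension `κ` and the numerical dimension `ν`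
of `K_X + Δ` are equal: either both are `-∞` or both are `0`. -/
theorem Pool.Agent.Results.MP_2c56d9_ag.HyperbolicPairs.result
    {K : Type} [Field K] [Algebra ℂ K] {N n : ℕ} {y : Fin (N + 1) → K} (hy : NormalModel y)
    (hn : Algebra.trdeg ℂ K = n) (hn0 : 0 < n) {Δ : Place ℂ K → ℚ} (hΔ : Effective y Δ)
    (hq : IrregularityZero y) {S : Set (K ≃ₐ[ℂ] K)}
    (h1 : ∀ φ ∈ S, PullLe φ y n Δ) (h2 : ∀ φ ∈ S, PullLe φ.symm y n Δ) {C : ℕ}
    (hC : ∀ φ ∈ S, mixedDegree φ y n 1 ≤ C)
    (hdeg : ∀ j, j + 1 ≤ n → ∃ a ≤ 1, ∃ p ≤ n, jointDegree S y n (j + a) < jointDegree S y n p) :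
    (kodairaDim y n Δ = ⊥ ∧ ∀ A, Effective y A → numericalDim y n Δ A = ⊥) ∨
      (kodairaDim y n Δ = ((0 : ℕ) : WithBot ℕ) ∧
        ∀ A, Effective y A → Integral y A → numericalDim y n Δ A = ((0 : ℕ) : EReal)) := by
  by_cases hpsef : LogPsef y n Δ
  · right
    have key : NumDimLt y n Δ 1 := by
      by_contra hnum
      obtain ⟨j, hj, h4⟩ := jplateau hy hn hΔ.2 h1 h2 hC (by omega : 1 ≤ n) hnum
      obtain ⟨a, ha, p, hp, hlt⟩ := hdeg j hj
      exact absurd hlt (not_lt.2 (h4 a ha p hp))
    obtain ⟨m, hm, ω, hω0, hω⟩ := NV.nonvanishing hy hn hn0 hΔ.2 hpsef key hq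
    exact abundance_zero hy hn hn0 hΔ key hm hω hω0
  · exact Or.inl (NV.not_psef hy hn hpsef)
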