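import Pool.Agent.N214.CL.Fin
import Pool.Agent.N214.CL.Stm
import Pool.Agent.N999.CL.LOVER

/-!
# Weak abundance for pairs with multi-valued maps to varieties of log general type

Let `(W, Δ)` be a projective log canonical pair, of any dimension and any Kodaira dimension, let `BW` be
the set of its log canonical places (for example `Δ` is reduced with normal crossings, and `BW` are
the divisors at infinity of the open variety `W° = W ∖ Δ` and the exceptional divisors over the strata of
`Δ`), and let `W ⇢ X j`, `j < s`, be multi-valued dominant rational maps to varieties `X j` with
boundaries `B j`: a general point of `W` has `d j` different values in `X j`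
(`[L(E j) : L] = d j` for the function fields `L` of `W` and `E j` of `X j`, contained in an extension
`K` of `L` of finite degree). The fibres of these maps are arbitrary. The maps are proper as maps
`W° ⇢ X j ∖ B j`: the prime divisors over the values in `X j` of a prime divisor of `W` which is not in
`BW` are not in `B j`.

Suppose that for every `j` the logarithmic canonical forms of `X j` separate `2 d j` general points: for
some nonempty open subset `U` of `X j` any `2 d j` different points of `U` impose independent
conditions on `H⁰(X j, K + B j)`. For example `X j` is a projective space of dimension `m` and `B j` is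
a normal crossing divisor of degree at least `m + 2 d j`, or `X j` is a product of curves with
boundaries such that the logarithmic canonical forms of each factor separate `2 d j` points.

**Theorem.** There is a fibration `W ⇢ X'` over which all maps are defined up to finitely many values
(all functions on the `X j` are algebraic over the functions on `X'`), so that the dimension `b` of `X'`
is at least the dimension of the joint image of the maps, and a boundary `BN` of `X'` such that

* all prime divisors of `W` over the divisors in `BN` are in `BW` (they are log canonical places of
  `(W, Δ)`);
* a tensor power of the logarithmic cotangent bundle of `(X', BN)` contains a big line bundle: there is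
  a logarithmic tensor `T ≠ 0` and there are `b` algebraically independent functions `c k` on `X'` such
  that `T` and all `c k • T` are regular at all prime divisors over `X'`.

By the theorem of Campana and Păun (a log smooth pair such that a tensor power of its logarithmic
cotangent bundle contains a big line bundle is of log general type) `(X', BN)` is of log general type,
and as its boundary pulls back into the log canonical places of `(W, Δ)`, one has
`κ(K_W + Δ) ≥ κ(K_F + Δ_F) + b` for the general fibre `F` (additivity over a base of log general type:
Viehweg, Maehara, Campana, Fujino). So, if the joint image has dimension at least `dim W - 3`, weak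
abundance (Q1) holds for `(W, Δ)`: the general fibre `(F, Δ_F)` is an lc pair of dimension at most three,
so `ν(K_F + Δ_F) = κ(K_F + Δ_F)` (Keel, Matsuki, McKernan), and by the easy addition for the numerical
dimension (Nakayama) `ν(K_W + Δ) ≤ ν(K_F + Δ_F) + b ≤ κ(K_W + Δ)`. In general the theorem reduces Q1
for `(W, Δ)` to the fibres of `W ⇢ X'`. If the joint image has the dimension of `W` then `K_W + Δ` is
big.

For empty boundaries this is the theorem `MP_c2a5fc_ag.MultivaluedMaps`. New are the logarithmic
poles: a logarithmic canonical form may have logarithmic poles at some of the values of a prime
divisor `P` of `X'` and not at others, and the divisor with logarithmic poles must be shown to come from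
the boundary of `W`.

Proof. Let `X'` be defined by the functions on `W` which are algebraic over the field generated by all
conjugates of the functions on the `X j`; let `BN` be the set of the prime divisors `P` of `X'` such
that some value of `P` in some `X j` is in `B j`. Let `f` be a logarithmic canonical form on `X = X j`,
`m = dim X`. The sum of its pull-backs by the `d` branches of `X' ⇢ X` is a rational `m`-form `τ f` on
`X'`, the trace. If `P` is in `BN` the arguments are vector fields which are logarithmic at `P`; their
lifts are logarithmic and the values of the pull-backs are regular at all divisors over `P`. If `P` is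
not in `BN` then there are no logarithmic poles over `P`, at most one of the vector fields in the
arguments is not logarithmic at `P`, and its lift has a pole of order at most `e - 1`, where `e` is the
ramification index. So `τ f` is regular as a logarithmic form. The rest is as in the compact case: the
determinants of the forms `τ f` are tensors which are proportional to each other; if two general points
of `X'` have the same ratios of these tensors then they have the same values, because the
logarithmic canonical forms separate the at most `2 d` values.

The boundary: let `P` be in `BN`, `Q` a value of `P` (a place of the function field `M` of the graph of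
`X' ⇢ X j`) in the boundary, and `R` a prime divisor of `W` over `P`. Then there is a place of `K` over
`Q` and `R` (`LOVER`, helper 999), so `R` is in `BW`. If there were none, take by weak approximation a
function `u` in `M` with a pole at `Q` and no pole at the other places over `P`. Then `u` has no pole
over `R`, so the coefficients of its minimal polynomial over `L` are regular at `R`; they are algebraic
over the functions of `X'`, so they are functions on `X'` regular at `P`, and `u` is regular at `Q`.

The parts of the Lean proof on linear algebra, on the comparison of two points, on the field of
definition, on the multilinearity and on the extension of places are due to helpers 826, 218, 966, 767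
and 999; the separation of points by traces is the method of the team's theorem `ProductWithCurveKlt`
(helpers 145, 123), whose lemma on the pull-back of logarithmic forms (helper 123) is used.
-/

set_option autoImplicit false
set_option linter.overlappingInstances false

open FF Module Pool.Agent Pool.Agent.W602.GT

namespace Pool.Agent.Results.MP_2c56d9_ag.LogMultivaluedMaps

/-- **The logarithmic canonical forms separate `r` general points.** `E` is the function field of a
variety `X` of dimension `m`, `B` is a set of prime divisors over `X`, the boundary (the divisors at
infinity of the open variety), and `D` is a rational frame of the tangent bundle. The embeddings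
`σ : E → Ω` are the generic points of `X` with coordinates in the field `Ω`. At most `r` different such
points impose independent conditions on the logarithmic canonical forms `ω`, i.e. on the rational
`m`-forms which have at most logarithmic poles at the divisors in `B` and no poles at the other prime
divisors: if `∑ c σ * σ (ω D) = 0` for all `ω` then all the coefficients `c σ` are zero. -/
def SeparatesPoints (E : Type) [Field E] [Algebra ℂ E] (B : Place ℂ E → Prop) (m r : ℕ) : Prop :=
  ∀ D : Fin m → Derivation ℂ E E, LinearIndependent E D →
    ∀ (Ω : Type) [Field Ω] [Algebra ℂ Ω] [IsAlgClosed Ω] (A : Finset (E →ₐ[ℂ] Ω)), A.card ≤ r →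
    ∀ c : (E →ₐ[ℂ] Ω) → Ω,
    (∀ ω : (Fin m → Derivation ℂ E E) → E, IsPluri 1 ω →
      (∀ P : Place ℂ E, Divisorial m P → LogAt P ω ∧ (¬ B P → RegAt P ω)) →
      ∑ σ ∈ A, c σ * σ (ω D) = 0) →
    ∀ σ ∈ A, c σ = 0

/-- **A tensor power of the logarithmic cotangent bundle contains a big line bundle.** `N` is the
function field of a variety of dimension `b`, with the boundary `B`. There is a tensor `T ≠ 0` (an
`N`-multilinear function of `r` rational vector fields) and there are `b` algebraically independent
functions `c k` such that `T` and the `c k • T` are regular at all prime divisors `P` as logarithmic
tensors: their values are regular at `P` on vector fields which are logarithmic at `P`, and, if `P` is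
not in `B`, on vector fields which are regular at `P`. -/
def HasBigLogTensors (N : Type) [Field N] [Algebra ℂ N] (B : Place ℂ N → Prop) (b : ℕ) : Prop :=
  ∃ (r : ℕ) (T : MultilinearMap N (fun _ : Fin r => Derivation ℂ N N) N) (c : Fin b → N),
    T ≠ 0 ∧ AlgebraicIndependent ℂ c ∧
    ∀ P : Place ℂ N, Divisorial b P → ∀ D : Fin r → Derivation ℂ N N,
      (∀ i, DerLog P (D i) ∨ (¬ B P ∧ DerReg P (D i))) →
      P.Reg (T D) ∧ ∀ k, P.Reg (c k * T D)

/-- **Multi-valued maps to open varieties whose logarithmic canonical forms separate points.** `L` is
the function field of the variety `W` of dimension `n` with the boundary `BW`, `K` a finite extension,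
and `E j` the function field of the variety `X j` of dimension `m j` with the boundary `B j`, embedded
in `K`; `d j = [L(E j) : L]` is the number of values of a general point of `W` in `X j`. The maps are
proper: values of prime divisors of `W` outside `BW` are not in the boundary `B j`. If the logarithmic
canonical forms of `X j` separate `2 d j` general points for all `j` then there is a fibration
`W ⇢ X'`, `b = dim X'` (the function field `N` of `X'` is a subfield of `L`, algebraically closed in
`L`) and a boundary `BN` of `X'` such that the functions on the `X j` are algebraic over the functions
on `X'`, `b` is at least the dimension of the joint image, all prime divisors of `W` over the divisors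
in `BN` are in `BW`, and a tensor power of the logarithmic cotangent bundle of `(X', BN)` contains a big
line bundle. -/
theorem result (L K : Type) [Field L] [Field K] [Algebra ℂ L] [Algebra ℂ K] [Algebra L K]
    [IsScalarTower ℂ L K] [FiniteDimensional L K] [Algebra.EssFiniteType ℂ L] {n : ℕ}
    (hL : Algebra.trdeg ℂ L = n)
    -- the boundary of `W`
    (BW : Place ℂ L → Prop)
    -- the varieties `X j` and their boundaries
    {s : ℕ} (E : Fin s → Type) [∀ j, Field (E j)] [∀ j, Algebra ℂ (E j)]
    [∀ j, Algebra.EssFiniteType ℂ (E j)] (m : Fin s → ℕ)
    (hE : ∀ j, Algebra.trdeg ℂ (E j) = m j) (B : ∀ j, Place ℂ (E j) → Prop)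
    -- the multi-valued maps
    [∀ j, Algebra (E j) K] [∀ j, IsScalarTower ℂ (E j) K]
    (hB : ∀ (j : Fin s) (Q : Place ℂ K) (P' : Place ℂ (E j)) (P : Place ℂ L) (e' e : ℕ),
      Divisorial n Q → Over Q P' e' → Over Q P e → B j P' → BW P)
    (hX : ∀ j, SeparatesPoints (E j) (B j) (m j)
      (2 * finrank L (IntermediateField.adjoin L (Set.range (algebraMap (E j) K))))) :
    ∃ (N : IntermediateField ℂ L) (b : ℕ) (BN : Place ℂ N → Prop), Algebra.trdeg ℂ N = b ∧
      (∀ z : L, IsAlgebraic N z → z ∈ N) ∧
      (∀ j, ∀ z : E j, IsAlgebraic N (algebraMap (E j) K z)) ∧
      Algebra.trdeg ℂ (IntermediateField.adjoin ℂ (⋃ j, Set.range (algebraMap (E j) K))) ≤ b ∧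
      (∀ (P : Place ℂ N) (R : Place ℂ L) (e : ℕ), BN P → Divisorial n R → Over R P e → BW R) ∧
      HasBigLogTensors N BN b := by
  choose x D hx hD using fun j => Pool.Agent.Y172.exists_crd (hE j)
  obtain ⟨N, b, hb, hcl, halg, hfin, hdim, r, T, c, hT0, hT, hTc, hc⟩ :=
    N214.CL.main (L := L) E hE hx (BX := B) (g := fun j =>
      2 * finrank L (IntermediateField.adjoin L (Set.range (algebraMap (E j) K))) + 1)
    (fun j => by
      intro Ω _ _ _ A hA c hc
      refine hX j (D j) (N214.CP.dual_indep (hD j)) Ω A (by omega) c fun ω h1 h2 =>
        hc _ fun P hP => ?_
      have h3 : (fun D' : Fin (m j) → Derivation ℂ (E j) (E j) =>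
          (Matrix.of fun i l => D' i (x j l) : Matrix (Fin (m j)) (Fin (m j)) (E j)).det *
            ω (D j)) = ω := by
        funext D'
        rw [Pool.Agent.Y172.pluri_coord (hx j) (hD j) h1 D', pow_one]
      rw [h3]
      exact h2 P hP)
    fun j => Nat.lt_succ_self _
  refine ⟨N, b, _, hb, hcl, halg, hdim, ?_, r, T, c, hT0, hc, fun P hP D' hD' =>
    ⟨hT P hP D' hD', fun k => hTc k P hP D' hD'⟩⟩
  rintro P R r' ⟨j, Q, e, P', e', h1, h2, h3, h4⟩ hR hRP
  have := hfin j
  obtain ⟨S, a, a', hSQ, hSR⟩ := N999.CL.LOVER L K N hcl
    (IntermediateField.adjoin N (Set.range (algebraMap (E j) K))) P Q e R r' h1 hRP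
  have h5 : Over S P' (a * e') := by
    refine ⟨Nat.mul_pos hSQ.1 h3, fun z => ?_⟩
    have hz : algebraMap (E j) K z ∈
        IntermediateField.adjoin N (Set.range (algebraMap (E j) K)) :=
      IntermediateField.subset_adjoin _ _ ⟨z, rfl⟩
    have h6 := hSQ.2 ⟨_, hz⟩
    rw [h4 z ⟨_, hz⟩ rfl] at h6
    change S.ord (algebraMap (E j) K z) = _ at h6
    rw [h6]
    push_cast
    ring
  exact hB j S P' R _ _ (Pool.Agent.Y172.divisorial_up hSR hR) h5 hSR h2

end Pool.Agent.Results.MP_2c56d9_ag.LogMultivaluedMaps
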