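import Pool.Agent.N162.GP.Sep

/-!
# Weak abundance for the log canonical pairs dominated by the product of an open subset of a complete
intersection and an open curve

Let `V` be a smooth complete intersection of dimension `n ≥ 1` and of codimension at least two in a
projective space with `K_V = O(m)`, or more generally any variety in projective `(M + 1)`-space which is
cut out by equations of degree at most `D` and has the regular canonical forms `P(x) ω₀` for all forms
`P` of degree `m` (`LowDegree`, `Pool/Agent/N162/GP/Def.lean`).
Let `V°` be any smooth variety with the function field of `V`, for instance any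
open subset of `V`, and `U = C ∖ B` any smooth curve, open or projective. Let `V° × U ⇢ W°` be
a dominant rational map of finite degree which is proper in the sense that a prime divisor over
`V° × U` (on any compactification of any birational model) has a centre on `V° × U` if and only if
its image has a centre on `W°`; for example any finite morphism onto a normal variety `W°`. It need not
be related to the product structure, and it need not be the quotient by a group. Let `d` be the number
of different points of `V` below a general fibre, i.e. the degree over `W` of the image of `V × C` in
`W × V`; it is at most the degree of `V × C ⇢ W`, which may be arbitrarily large. Let `(W, D_W)` be a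
smooth projective compactification of (a resolution of) `W°` with the reduced boundary `D_W`.

**Theorem.** Let `m ≥ 7 N + 4`, `(M + 1) N < m + M + 2` and `D + N ≤ m + 2`. If
`2 d < (N + 1) (m + 2 - N)` then

`K_W + D_W is pseudo-effective ⟺ κ(K_W + D_W) ≥ dim W - 1 ⟺ W° is not A¹-uniruled`.

So the weak abundance conjecture `ν = κ` holds for `K_W + D_W`, for all these pairs: if `K_W + D_W` is
not pseudo-effective then `ν = κ = -∞`, and otherwise `κ` is `dim W - 1` or `dim W`; since `κ ≤ ν ≤ dim W`,
and `ν = dim W` only if the divisor is big, `ν = κ` in both cases. It follows that `ν = κ` for all lc
pairs `(X, Δ)` with reduced boundary `Δ` such that `X ∖ Δ` has canonical singularities and is the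
variety `W°` (up to proper birational maps). If the boundaries are empty the theorem is about the
projective varieties dominated by `V × C`.

There is no condition on the irregularity: for `n ≥ 2` the variety `V` is simply connected, and
`q(W) = 0` is possible. For smooth complete intersections of the type `(d_1, ..., d_q)` in `ℙ^(n+q)` one has
`m = ∑ d_i - n - q - 1`, `D = max d_i`, `M + 1 = n + q`. With the best `N` the bound for `d` is
`(3 / 49 - o(1)) m ^ 2` if `M ≤ 5` and `max d_i ≤ 6 m / 7`.

## Proof

The trace on `W°` of the product of the pullbacks of a canonical form `f` on `V` and a logarithmic
differential `φ` on `U` is a logarithmic canonical form on `W°`. Suppose first that all logarithmic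
canonical forms on `W°` vanish. This is a relation between the values of the forms `f` at the at most
`d` points of `V` below a generic point of `W`, with coordinates in the algebraic closure `Ω` of the
function field of `W`. In general one compares in the same way two generic points of `W` at which the
ratios of the logarithmic canonical forms agree, which gives relations with at most `2 d` points of `V`.
The main point is that fewer than `(N + 1) (m + 2 - N)` generic points of `V` are separated by the
canonical forms. Otherwise, there is a relation between the values of the forms `P` of degree `m` at
these points. By results on points in a plane applied to projections and by the Cayley-Bacharach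
theorem the points are on a curve in projective `(M + 1)`-space over `Ω` with components of total degree at
most `N`, and one of the components `C'`, of degree `g`, contains at least `g (m + 3 - N)` of the points.
Since `m + 3 - N > D`, the equations of `V` vanish on `C'`. So `C'` is a curve of degree at most `N` on `V`
over `Ω` which contains generic points of `V`. The canonical forms `P(x) ω₀`, pulled back to the total
space of the family of curves given by `C'`, have no poles; the residue theorem for all `P` gives that
the pull-back of `ω₀` is zero, a contradiction. The rest is the theory of the varieties dominated by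
`X × C` of helper145 (`Pool/Agent/N145/SX`).

The parts for this theorem were formalised by helper2, helper11, helper340, helper774, helper823,
helper152, helper383, helper252, helper339, helper681 and helper364, and helper145, helper123, helper221,
helper160, helper279, helper603, helper545, helper281, helper438, helper277 and helper999 (varieties
dominated by a product with a curve), the earlier parts which are used by helper565, helper279,
helper543, helper488, helper570, helper80 and others; the assembly by helper162.
-/

set_option autoImplicit false
set_option linter.overlappingInstances false
set_option maxHeartbeats 4000000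
set_option synthInstance.maxHeartbeats 400000

open FF Module Pool.Agent Pool.Agent.W602.GT Pool.Agent.N162.BC Pool.Agent.N162.GP
open Pool.Agent.W619.PL (IsA1Uniruled)

namespace Pool.Agent.Results.MP_2c56d9_ag.OpenSubsetsTimesCurves

/-- The place `Q` of the function field `K` of `V × C` lies over a place of `E` without centre on
`V°`, or over a point in `B`: it has no centre on `V° × U`. -/
def Boundary {K : Type} [Field K] [Algebra ℂ K] {E C : IntermediateField ℂ K}
    (BV : Place ℂ E → Prop) (B : Set (Place ℂ C)) (Q : Place ℂ K) : Prop :=
  (∃ (P : Place ℂ E) (e : ℕ), BV P ∧ 0 < e ∧ ∀ f : E, Q.ord (f : K) = e * P.ord f) ∨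
    ∃ p ∈ B, ∃ e : ℕ, 0 < e ∧ ∀ f : C, Q.ord (f : K) = e * p.ord f

/-- The set `BW` of places of the function field `L` of `W` is the boundary of the image of `V° × U`:
for all places `Q` of `K` over a place `P` of `L`, `P` is in `BW` if and only if `Q` has no centre
on `V° × U`. -/
def IsImageBoundary {K : Type} [Field K] [Algebra ℂ K] {E C : IntermediateField ℂ K}
    (BV : Place ℂ E → Prop) (B : Set (Place ℂ C)) (L : Type) [Field L] [Algebra ℂ L] [Algebra L K]
    (BW : Place ℂ L → Prop) : Prop :=
  ∀ (P : Place ℂ L) (Q : Place ℂ K) (e : ℕ), 0 < e →
    (∀ f : L, Q.ord (algebraMap L K f) = e * P.ord f) → (BW P ↔ Boundary BV B Q)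

/-- **Weak abundance for the pairs dominated by the product of an open subset of `V` and an open
curve.** (1) A smooth complete intersection `V` of dimension `n ≥ 1` of hypersurfaces of the degrees
`d i ≤ D` in projective `(M + 1)`-space is cut out by equations of degree at most `D`, and the forms of
degree `m = ∑ d i - M - 2` give regular canonical forms. (2) Let `V` be any such variety of dimension `n`
in projective `(M + 1)`-space, `M ≥ 1`, and let `m ≥ 7 N + 4`, `(M + 1) N < m + M + 2`, `D + N ≤ m + 2`. Let
`K` be the function field of `V × C`, i.e. the compositum of the function fields `E` of `V` and `C` of a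
curve, of transcendence degree `n + 1`. Let `V°` be an open variety with function field `E` and boundary
`BV` (the places of `E` without centre on `V°`), and let `B` be a finite set of points of the curve; they
may be empty. Let `L ⊆ K` be the function field of a variety `W` such that the extension is finite, and
let `W°` be an open variety with function field `L` and boundary `BW` which is the image of the product
of `V°` and the open curve under a proper map. Let `2 d < (N + 1) (m + 2 - N)`, where `d` is the degree
over `W` of the image of `V × C` in `W × V`. Then the following are equivalent: the log canonical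
divisor of `W°` is pseudo-effective; the logarithmic Kodaira dimension of `W°` is at least `dim W - 1`;
`W°` is not `A¹`-uniruled. -/
theorem result :
    (∀ (M n q m D : ℕ) (E : Type) [Field E] [Algebra ℂ E]
      (F : Fin q → MvPolynomial (Fin (M + 2)) ℂ) (d : Fin q → ℕ) (x : Fin (M + 2) → E),
      SmoothCI F d x → 1 ≤ n → Algebra.trdeg ℂ E = n → n + q = M + 1 → m + M + 2 = ∑ i, d i →
      (∀ i, d i ≤ D) → 1 ≤ D → LowDegree n m D x) ∧
    ∀ (M n m D N : ℕ) (K : Type) [Field K] [Algebra ℂ K] [Algebra.EssFiniteType ℂ K]
      (E C : IntermediateField ℂ K) [IsFF ℂ C] (x : Fin (M + 2) → E),
      LowDegree n m D x → 1 ≤ M → 7 * N + 4 ≤ m → (M + 1) * N < m + M + 2 → D + N ≤ m + 2 →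
      E ⊔ C = ⊤ → Algebra.trdeg ℂ K = (n + 1 : ℕ) →
      ∀ (BV : Place ℂ E → Prop) (B : Set (Place ℂ C)), B.Finite →
      ∀ (L : Type) [Field L] [Algebra ℂ L] [Algebra L K] [IsScalarTower ℂ L K]
        [FiniteDimensional L K] (BW : Place ℂ L → Prop), IsImageBoundary BV B L BW →
        2 * finrank L (IntermediateField.adjoin L (E : Set K)) < (N + 1) * (m + 2 - N) →
        [Psef ℂ L (n + 1) BW, KodGe ℂ L (n + 1) BW n, ¬ IsA1Uniruled ℂ L (n + 1) BW].TFAE := by
  refine ⟨fun M n q m D E _ _ F d x h hn hE hq hm hD hD1 =>
    lowDegree_of_smoothCI fCIC fCIA h hn hE hq hm hD hD1, ?_⟩
  intro M n m D N K _ _ _ E C _ x h hM hm hN hD hEC hK BV B hB L _ _ _ _ _ BW hBW hd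
  haveI := ess_of_gen h.gen
  obtain ⟨z, e, hz, he⟩ := Pool.Agent.Y172.exists_crd h.dim
  exact N145.SX.dichotomy_all hEC h.dim hK hz (BX := BV) hB (BL := BW)
    (fun P Q e h => by rw [hBW P Q e h.1 h.2]; rfl)
    (sepX_low fINX h hM hm hN hD hz he BV) hd

end Pool.Agent.Results.MP_2c56d9_ag.OpenSubsetsTimesCurves
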